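import Pool.Agent.X92.PD5

set_option autoImplicit false

/-!
# No uniform entropic rate for the Zig-Zag process and the Bouncy Particle Sampler

In dimension one, for every potential `U` of class `C²` with bounded second derivative,
`∫ exp(-U) < ∞` and an exponential moment of `π ∝ exp(-U)` (for instance `U(x) = x²/2`, where `π`
satisfies the log-Sobolev inequality by Gross' theorem), and every refreshment rate `γ > 0`, no
exponential rate `λ > 0` of decay of `KL(p_t | μ)` is valid for all initial laws with exponential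
tails, neither for the Zig-Zag process nor for the Bouncy Particle Sampler.
-/

namespace Pool.Agent.Results.MP_2024f4_pr.NoUniformRate

open MeasureTheory ProbabilityTheory InformationTheory Set Filter Topology
open Pool.Agent.X92.PD

/-- `C²`, bounded second derivative, integrable `exp(-U)` -/
def Standing (U : ℝ → ℝ) : Prop :=
  ContDiff ℝ 2 U ∧ (∃ M, ∀ x, |deriv (deriv U) x| ≤ M) ∧ Integrable (fun x => Real.exp (-U x))

/-- `π ∝ exp(-U)` has an exponential moment -/
def ExpMoment (U : ℝ → ℝ) : Prop :=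
  ∃ κ > 0, Integrable (fun x : ℝ => Real.exp (κ * |x| - U x))

/-- The rate `lam` fails for the velocity jump process with velocity set `S`, velocity law `ν` and
generator `L`: there is one initial law `p₀` with exponential tails and finite relative entropy
such that, for every such process started from `p₀` and every constant `C₀`, the bound
`KL(p_t | μ) ≤ C₀ exp(-lam t)` fails for some `t ≥ 0`, where `μ = π ⊗ ν`. -/
def RateFails (U : ℝ → ℝ) (S : Set ℝ) (ν : Measure ℝ) (L : (ℝ → ℝ → ℝ) → ℝ → ℝ → ℝ)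
    (lam : ℝ) : Prop :=
  ∃ p₀ : Measure (ℝ × ℝ), IsProbabilityMeasure p₀ ∧ ExpTails p₀ ∧
    klDiv p₀ ((target U).prod ν) ≠ ⊤ ∧
    ∀ (Ω : Type) [MeasurableSpace Ω] (P : Measure Ω) [IsProbabilityMeasure P]
      (X V : ℝ → Ω → ℝ), IsProc P S L X V → P.map (fun ω => (X 0 ω, V 0 ω)) = p₀ →
      ∀ C₀ : ℝ, ∃ t, 0 ≤ t ∧ ENNReal.ofReal (C₀ * Real.exp (-lam * t)) <
        klDiv (P.map (fun ω => (X t ω, V t ω))) ((target U).prod ν)

theorem rateFails (U : ℝ → ℝ) (hU : Standing U) (hE : ExpMoment U) (S : Set ℝ) (ν : Measure ℝ)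
    [IsProbabilityMeasure ν] (L : (ℝ → ℝ → ℝ) → ℝ → ℝ → ℝ) (lam K c : ℝ) (hlam : 0 < lam)
    (hK : 0 ≤ K) (hc : 0 < c)
    (htail : ∀ (a : ℝ), 0 < a → ∀ (Ω : Type) [MeasurableSpace Ω] (P : Measure Ω)
      [IsProbabilityMeasure P] (X V : ℝ → Ω → ℝ), IsProc P S L X V →
      P.map (fun ω => (X 0 ω, V 0 ω)) = start a ν → ∀ t R, 0 ≤ t → 0 ≤ R →
      ENNReal.ofReal (c * Real.exp (-a * R)) ≤
        P.map (fun ω => (X t ω, V t ω)) {z | R - K * t < z.1}) :
    RateFails U S ν L lam := by
  obtain ⟨h2, ⟨M, hM⟩, hI⟩ := hU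
  obtain ⟨κ, hκ, hEκ⟩ := hE
  obtain ⟨C, hC, htt⟩ := tail_target hI hκ hEκ
  have := isProb_target hI
  set m := min κ lam with hm
  have hmpos : 0 < m := lt_min hκ hlam
  set a := m / (2 * (K + 1)) with ha
  have ha0 : 0 < a := by positivity
  have hab : a * (K + 1) = m / 2 := by
    rw [ha]; field_simp
  have hbm : a * (K + 1) < m := by rw [hab]; linarith
  have := isProbabilityMeasure_expMeasure ha0
  refine ⟨start a ν, by unfold start; infer_instance, expTails_start ha0 ν,
    kl_fin h2 hM hI ha0 ν, ?_⟩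
  intro Ω _ P _ X V hproc h0 C₀
  refine slow ((target U).prod ν) (fun t => P.map (fun ω => (X t ω, V t ω)))
    (fun t => Measure.isProbabilityMeasure_map (hproc.measPair t).aemeasurable)
    C κ K a c lam hC hc hK ?_ (htail a ha0 Ω P X V hproc h0)
    (hbm.trans_le (min_le_left _ _)) (hbm.trans_le (min_le_right _ _)) C₀
  intro s _
  have e : {z : ℝ × ℝ | s < z.1} = Ioi s ×ˢ univ := by ext z; simp
  rw [e, Measure.prod_prod, measure_univ, mul_one]
  exact htt s

theorem gauss_ok : Standing (fun x : ℝ => x ^ 2 / 2) ∧ ExpMoment (fun x : ℝ => x ^ 2 / 2) := by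
  have hd : deriv (fun x : ℝ => x ^ 2 / 2) = fun x => x := by
    funext x
    have := ((hasDerivAt_pow 2 x).div_const 2)
    rw [this.deriv]
    simp
  refine ⟨⟨by fun_prop, ⟨1, fun x => ?_⟩, ?_⟩, ⟨1, one_pos, ?_⟩⟩
  · rw [hd]; simp
  · have := integrable_exp_neg_mul_sq (b := 1 / 2) (by norm_num)
    refine this.congr (Eventually.of_forall fun x => ?_)
    show Real.exp (-(1 / 2) * x ^ 2) = Real.exp (-(x ^ 2 / 2))
    congr 1; ring
  · have h := (integrable_exp_neg_mul_sq (b := 1 / 4) (by norm_num)).const_mul (Real.exp 1)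
    refine h.mono' (by fun_prop) (Eventually.of_forall fun x => ?_)
    rw [Real.norm_eq_abs, abs_of_pos (Real.exp_pos _), ← Real.exp_add]
    refine Real.exp_le_exp.2 ?_
    nlinarith [sq_nonneg (|x| / 2 - 1), sq_abs x]

/-- **No uniform exponential rate in relative entropy**, for the Zig-Zag process and for the
Bouncy Particle Sampler in dimension one. -/
theorem result :
    (∀ U : ℝ → ℝ, Standing U → ExpMoment U → ∀ γ : ℝ, 0 < γ → ∀ lam : ℝ, 0 < lam →
      RateFails U {-1, 1} coin (zzGen U γ) lam ∧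
      RateFails U univ (gaussianReal 0 1) (bpsGen U γ) lam) ∧
    Standing (fun x : ℝ => x ^ 2 / 2) ∧ ExpMoment (fun x : ℝ => x ^ 2 / 2) := by
  refine ⟨?_, gauss_ok⟩
  intro U hU hE γ _ lam hlam
  have := isProb_coin
  refine ⟨?_, ?_⟩
  · refine rateFails U hU hE _ _ _ lam 1 1 hlam zero_le_one one_pos ?_
    intro a ha Ω _ P _ X V hp h0 t R ht hR
    exact zz_tail ha hp h0 t R ht hR
  · refine rateFails U hU hE _ _ _ lam 2 (1 / 2) hlam zero_le_two (by norm_num) ?_
    intro a ha Ω _ P _ X V hp h0 t R ht hR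
    exact bps_tail hp h0 ha t R ht hR

end Pool.Agent.Results.MP_2024f4_pr.NoUniformRate
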